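import Pool.Agent.Work.MP_db9399_cfg_helper44.Sum2

/-!
# MP_db9399, all scales, block CFG: assembly (helper44)
-/

set_option autoImplicit false

namespace Pool.Agent.Work.MP_db9399_cfg_helper44

open Finset Classical
open Pool.Agent.Work.MP_db9399_all (nb)
open Pool.Agent.Work.MP_db9399_da
open Pool.Agent.Work.MP_db9399_xf
open Pool.Agent.Work.MP_db9399_owc (Cap)

universe u

section glob
variable {V : Type u} [Fintype V] {N J : ℕ}

/-- neighbours in the piece `n` -/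
noncomputable def Fn (G : SimpleGraph V) (X : XD V N J) (n : Fin N) (w : V) : ℕ :=
  (nb G w ∩ pV X.P n).card

/-- `w` is in the cluster of the piece `n` -/
def In (X : XD V N J) (n : Fin N) (w : V) : Prop := ∃ v ∈ pV X.P n, X.cq w = X.cq v

variable {C g z θk θ' η a : ℝ} {M : ℕ} {S : Fin J → Scl} {G : SimpleGraph V} {d : ℕ}
  {X : XD V N J}

lemma mem_pV' {n : Fin N} {v : V} : v ∈ pV X.P n ↔ v ∉ X.P.V0 ∧ X.P.pc v = n := by
  unfold pV
  simp

lemma mem_nb' {v w : V} : w ∈ nb G v ↔ G.Adj v w := by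
  unfold nb
  simp

/-- one piece satisfies the conditions -/
lemma oneP (hX : PcD C g z θk θ' η a M S G d X) (hS : ∀ s, 0 < (S s).θ) (n : Fin N) :
    OneP (Fn G X n) (Ow G X d) (In X n) d (S (X.sc n)).θ a where
  Fd w := by
    unfold Fn
    calc _ ≤ (nb G w).card := card_le_card inter_subset_left
      _ = d := hX.reg w
  inn := by
    by_cases hne : ∃ v, v ∈ pV X.P n
    · obtain ⟨v, hv⟩ := hne
      have hv' := mem_pV'.1 hv
      have h1 := hX.v0c v hv'.1
      rw [hv'.2] at h1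
      refine le_trans ?_ h1
      have : (univ.filter (fun w => Ow G X d w ∧ In X n w)).card ≤
          (univ.filter (fun w => w ∈ X.P.V0 ∧ X.cq w = X.cq v)).card := by
        refine card_le_card fun w hw => ?_
        obtain ⟨hO, v', hv1, hcq⟩ := (mem_filter.1 hw).2
        have hv2 := mem_pV'.1 hv1
        refine mem_filter.2 ⟨mem_univ _, hO.1, hcq.trans ?_⟩
        exact hX.clp v' v hv2.1 hv'.1 (hv2.2.trans hv'.2.symm)
      exact_mod_cast this
    · have : univ.filter (fun w => Ow G X d w ∧ In X n w) = ∅ := by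
        refine filter_eq_empty_iff.2 fun w _ h => ?_
        obtain ⟨_, v, hv, _⟩ := h
        exact hne ⟨v, hv⟩
      rw [this]
      have := hS (X.sc n)
      simp only [card_empty, Nat.cast_zero]
      positivity
  out := by
    refine le_trans ?_ (hX.xs n)
    have : ∑ w ∈ univ.filter (fun w => Ow G X d w ∧ ¬ In X n w), Fn G X n w ≤
        ∑ v ∈ pV X.P n, ((nb G v).filter (fun w => X.cq w ≠ X.cq v)).card := by
      have e1 : ∀ w, w ∈ univ.filter (fun w => Ow G X d w ∧ ¬ In X n w) → Fn G X n w ≤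
          ∑ v ∈ pV X.P n, if G.Adj v w ∧ X.cq w ≠ X.cq v then 1 else 0 := by
        intro w hw
        have hI := (mem_filter.1 hw).2.2
        unfold Fn
        rw [card_eq_sum_ones, ← sum_filter]
        refine sum_le_sum_of_subset fun v hv => ?_
        obtain ⟨h1, h2⟩ := mem_inter.1 hv
        exact mem_filter.2 ⟨h2, (mem_nb'.1 h1).symm, fun h => hI ⟨v, h2, h⟩⟩
      refine (sum_le_sum e1).trans ?_
      rw [sum_comm]
      refine sum_le_sum fun v _ => ?_
      rw [← sum_filter, ← card_eq_sum_ones]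
      refine card_le_card fun w hw => ?_
      have := (mem_filter.1 hw).2
      exact mem_filter.2 ⟨mem_nb'.2 this.1, this.2⟩
    exact_mod_cast this

/-- the code of a vertex at the piece `n` -/
noncomputable def cd (S : Fin J → Scl) (G : SimpleGraph V) (d : ℕ) (X : XD V N J) (m0 : ℝ)
    (n : Fin N) (w : V) : Option (ℕ × ℕ) :=
  cod (Fn G X n) (Ow G X d) (In X n) d (S (X.sc n)).θ m0 w

/-- the conflict graph -/
def Cfg (S : Fin J → Scl) (G : SimpleGraph V) (d : ℕ) (X : XD V N J) (m0 : ℝ) :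
    SimpleGraph V where
  Adj v w := v ≠ w ∧ ∃ n, cd S G d X m0 n v ≠ none ∧ cd S G d X m0 n v = cd S G d X m0 n w
  symm := ⟨fun _ _ ⟨h1, n, h2, h3⟩ => ⟨h1.symm, n, h3 ▸ h2, h3.symm⟩⟩
  loopless := ⟨fun _ h => h.1 rfl⟩

/-- the caps -/
noncomputable def Zc (S : Fin J → Scl) (G : SimpleGraph V) (d : ℕ) (X : XD V N J) (m0 : ℝ)
    (y : ULift.{u} (Fin N × Bool × Fin (d + 1))) : Finset V :=
  zc (Fn G X y.down.1) (Ow G X d) (In X y.down.1) d (S (X.sc y.down.1)).θ m0 y.down.2.1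
    y.down.2.2

lemma sum_Fn (v : V) : ∑ n, Fn G X n v = ((nb G v).filter (fun w => w ∉ X.P.V0)).card := by
  rw [card_eq_sum_card_fiberwise (f := X.P.pc) (t := univ) (fun _ _ => mem_coe.2 (mem_univ _))]
  refine sum_congr rfl fun n _ => ?_
  unfold Fn
  congr 1
  ext w
  simp only [mem_inter, mem_pV', mem_filter]
  tauto

lemma cfg_deg (hX : PcD C g z θk θ' η a M S G d X) (hS : ∀ s, 0 < (S s).θ) {m0 : ℝ}
    (hN : ∀ s, NumP d (S s).θ a m0) (v : V) :
    2 * (nb (Cfg S G d X m0) v).card ≤ ((nb G v).filter (fun w => ¬ Ow G X d w)).card := by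
  have h1 : (nb (Cfg S G d X m0) v).card ≤ ∑ n, if cd S G d X m0 n v ≠ none then
      (univ.filter (fun w => cd S G d X m0 n w = cd S G d X m0 n v)).card else 0 := by
    have h2 : nb (Cfg S G d X m0) v ⊆ (univ.filter (fun n => cd S G d X m0 n v ≠ none)).biUnion
        (fun n => univ.filter (fun w => cd S G d X m0 n w = cd S G d X m0 n v)) := by
      intro w hw
      obtain ⟨_, n, h1, h2⟩ := mem_nb'.1 hw
      exact mem_biUnion.2 ⟨n, mem_filter.2 ⟨mem_univ _, h1⟩, mem_filter.2 ⟨mem_univ _, h2.symm⟩⟩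
    refine ((card_le_card h2).trans card_biUnion_le).trans ?_
    rw [sum_filter]
  have h3 : 2 * (nb (Cfg S G d X m0) v).card ≤ ∑ n, Fn G X n v := by
    refine (Nat.mul_le_mul_left 2 h1).trans ?_
    rw [mul_sum]
    refine sum_le_sum fun n _ => ?_
    by_cases h : cd S G d X m0 n v ≠ none
    · rw [if_pos h]
      exact cod_card (oneP hX hS n) (hN _) h
    · rw [if_neg h]
      simp
  refine h3.trans ?_
  rw [sum_Fn]
  refine card_le_card fun w hw => ?_
  have := mem_filter.1 hw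
  exact mem_filter.2 ⟨this.1, fun h => this.2 h.1⟩

lemma cap_Zc (hX : PcD C g z θk θ' η a M S G d X) (hS : ∀ s, 0 < (S s).θ) {m0 : ℝ}
    (hN : ∀ s, NumP d (S s).θ a m0) : Cap d (Zc S G d X m0) where
  card y := by
    have hP := oneP hX hS y.down.1
    have hN' := hN (X.sc y.down.1)
    have hd1 : (1 : ℝ) ≤ d := by exact_mod_cast hN'.d1
    have hd2 : (d : ℝ) ≤ (d : ℝ) ^ 2 := by nlinarith
    have key : ((Zc S G d X m0 y).card : ℝ) ≤ (d : ℝ) ^ 2 := by
      obtain ⟨n, i, j⟩ := y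
      cases i with
      | true =>
        have h1 := zc_true (m0 := m0) hP (j : ℕ)
        refine h1.trans ?_
        have := hN'.θ1
        nlinarith
      | false =>
        have h1 := zc_false (m0 := m0) hP (j : ℕ)
        have h2 : (1 : ℝ) ≤ 2 ^ (j : ℕ) := one_le_pow₀ (by norm_num)
        have h3 : (0 : ℝ) ≤ ((zc (Fn G X n) (Ow G X d) (In X n) d (S (X.sc n)).θ m0 false
          (j : ℕ)).card : ℝ) := Nat.cast_nonneg _
        have h4 : a * (d : ℝ) ^ 2 ≤ (d : ℝ) ^ 2 := by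
          have := hN'.a1
          nlinarith [sq_nonneg (d : ℝ)]
        calc ((zc (Fn G X n) (Ow G X d) (In X n) d (S (X.sc n)).θ m0 false
          (j : ℕ)).card : ℝ) ≤ ((zc (Fn G X n) (Ow G X d) (In X n) d (S (X.sc n)).θ m0 false
          (j : ℕ)).card : ℝ) * 2 ^ (j : ℕ) := le_mul_of_one_le_right h3 h2
          _ ≤ _ := h1.trans h4
    exact_mod_cast key
  mul v := by
    have h1 : (univ.filter (fun y => v ∈ Zc S G d X m0 y)).card ≤
        (univ.filter (fun n => 1 ≤ Fn G X n v)).card := by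
      refine card_le_card_of_injOn (fun y => y.down.1) ?_ ?_
      · intro y hy
        have := (mem_filter.1 (mem_filter.1 (mem_coe.1 hy)).2).2
        exact mem_coe.2 (mem_filter.2 ⟨mem_univ _, this.2.1⟩)
      · rintro ⟨n, i, j⟩ hy ⟨n', i', j'⟩ hy' h
        simp only at h
        subst h
        have h1 := (mem_filter.1 (mem_filter.1 (mem_coe.1 hy)).2).2.2.2.2
        have h2 := (mem_filter.1 (mem_filter.1 (mem_coe.1 hy')).2).2.2.2.2
        simp only at h1 h2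
        have h3 : j = j' := Fin.ext (h1.2.symm.trans h2.2)
        have h4 : i = i' := by
          have := h1.1.symm.trans h2.1
          cases i <;> cases i' <;> simp_all
        rw [h3, h4]
    have h2 : (univ.filter (fun n => 1 ≤ Fn G X n v)).card ≤ ∑ n, Fn G X n v := by
      rw [card_eq_sum_ones, sum_filter]
      refine sum_le_sum fun n _ => ?_
      split_ifs <;> omega
    have h3 : ∑ n, Fn G X n v ≤ d := by
      rw [sum_Fn]
      exact (card_le_card (filter_subset _ _)).trans (le_of_eq (hX.reg v))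
    have h4 : d ≤ d ^ 3 := Nat.le_self_pow (by norm_num) d
    omega

lemma colP (hX : PcD C g z θk θ' η a M S G d X) {m0 : ℝ} {c : V → ℕ}
    (hN : ∀ s, NumP d (S s).θ a m0)
    (h1 : ∀ v w, (Cfg S G d X m0).Adj v w → c v ≠ c w)
    (h2 : ∀ y b, (((Zc S G d X m0 y).filter (fun v => c v = b)).card : ℝ) ≤
            Real.log d ^ 4 * (1 + ((Zc S G d X m0 y).card : ℝ) / d)) (n : Fin N) :
    ColP (Fn G X n) (Ow G X d) (In X n) d (S (X.sc n)).θ m0 c where
  ne w w' hne h h' := h1 w w' ⟨hne, n, h, h'⟩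
  cap i j b := by
    by_cases hj : j < d + 1
    · exact h2 ⟨n, i, ⟨j, hj⟩⟩ b
    · have he : zc (Fn G X n) (Ow G X d) (In X n) d (S (X.sc n)).θ m0 i j = ∅ := by
        refine filter_eq_empty_iff.2 fun w _ h => hj ?_
        have h3 := h.2.2.2.2
        have h4 : Fn G X n w ≤ d := by
          unfold Fn
          calc _ ≤ (nb G w).card := card_le_card inter_subset_left
            _ = d := hX.reg w
        have h5 := Nat.log_le_self 2 (Fn G X n w)
        omega
      rw [he]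
      have hl := (hN (X.sc n)).lg
      have : (0 : ℝ) < Real.log d := by linarith
      simp only [filter_empty, card_empty, Nat.cast_zero, zero_div, add_zero, mul_one]
      positivity

end glob

/-- the numbers -/
lemma num_ev (θ c' : ℝ) (hθ : 0 < θ) (hθ1 : θ ≤ 1) (hc : 0 < c') :
    ∀ᶠ d : ℕ in Filter.atTop, NumP d θ ((d : ℝ) ^ (-c')) ((d : ℝ) ^ (1 - c' / 3)) := by
  have hN := tendsto_natCast_atTop_atTop (R := ℝ)
  have hL := Real.tendsto_log_atTop.comp hN
  have e1 : ∀ᶠ d : ℕ in Filter.atTop, 1 / (4 * θ) ≤ (d : ℝ) := hN.eventually_ge_atTop _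
  have e2 : ∀ᶠ d : ℕ in Filter.atTop, (d : ℝ) ^ (-c') < 2 * θ ^ 2 :=
    ((tendsto_rpow_neg_atTop hc).comp hN).eventually_lt_const (by positivity)
  have e3 : ∀ᶠ d : ℕ in Filter.atTop, 2 ≤ (d : ℝ) ^ (c' / 3) :=
    ((tendsto_rpow_atTop (show 0 < c' / 3 by positivity)).comp hN).eventually_ge_atTop _
  have e4 : ∀ᶠ d : ℕ in Filter.atTop, 1 ≤ Real.log (d : ℝ) := hL.eventually_ge_atTop _
  have e5 : ∀ᶠ d : ℕ in Filter.atTop, 24 / θ ≤ Real.log (d : ℝ) := hL.eventually_ge_atTop _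
  have e6 : ∀ᶠ d : ℕ in Filter.atTop, ‖Real.log (d : ℝ) ^ 6‖ ≤ 1 * ‖(d : ℝ)‖ := by
    have := (Real.isLittleO_pow_log_id_atTop (n := 6)).def (show (0 : ℝ) < 1 by norm_num)
    exact hN.eventually this
  have e7 : ∀ᶠ d : ℕ in Filter.atTop, ‖Real.log (d : ℝ) ^ (5 : ℝ)‖ ≤
      θ / 24 * ‖(d : ℝ) ^ (c' / 3)‖ := by
    have := (isLittleO_log_rpow_rpow_atTop (5 : ℝ) (show 0 < c' / 3 by positivity)).def
      (show (0 : ℝ) < θ / 24 by positivity)
    exact hN.eventually this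
  filter_upwards [e1, e2, e3, e4, e5, e6, e7, Filter.eventually_ge_atTop 1] with
    d e1 e2 e3 e4 e5 e6 e7 e8
  have hd : (0 : ℝ) < d := by exact_mod_cast e8
  have hd1 : (1 : ℝ) ≤ d := by exact_mod_cast e8
  have hl0 : 0 < Real.log (d : ℝ) := by linarith
  have p1 : (0 : ℝ) < (d : ℝ) ^ (c' / 3) := Real.rpow_pos_of_pos hd _
  have p2 : (0 : ℝ) < (d : ℝ) ^ (-(c' / 3)) := Real.rpow_pos_of_pos hd _
  have q1 : (d : ℝ) ^ (1 - c' / 3) = d * (d : ℝ) ^ (-(c' / 3)) := by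
    rw [show 1 - c' / 3 = 1 + -(c' / 3) by ring, Real.rpow_add hd, Real.rpow_one]
  have q2 : (d : ℝ) ^ (-(c' / 3)) * (d : ℝ) ^ (c' / 3) = 1 := by
    rw [← Real.rpow_add hd]; simp
  have q3 : (d : ℝ) ^ (-c') ≤ (d : ℝ) ^ (-(c' / 3)) :=
    Real.rpow_le_rpow_of_exponent_le hd1 (by linarith)
  have q4 : (d : ℝ) ^ (-c') = ((d : ℝ) ^ (-(c' / 3))) ^ 3 := by
    rw [← Real.rpow_natCast, ← Real.rpow_mul hd.le]
    congr 1
    push_cast
    ring
  refine ⟨e8, hθ, hθ1, ?_, Real.rpow_nonneg hd.le _, Real.rpow_le_one_of_one_le_of_nonpos hd1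
    (by linarith), e2.le, Real.rpow_pos_of_pos hd _, ?_, e4, ?_, ?_, ?_⟩
  · rw [div_le_iff₀ (by positivity)] at e1
    linarith
  · rw [q1, q4]
    have : 2 * (d : ℝ) ^ (-(c' / 3)) ≤ 1 := by
      rw [← q2, mul_comm]
      exact mul_le_mul_of_nonneg_left e3 p2.le
    calc 2 * (((d : ℝ) ^ (-(c' / 3))) ^ 3 * (d : ℝ) ^ 2)
        = (2 * (d : ℝ) ^ (-(c' / 3))) * (d * (d : ℝ) ^ (-(c' / 3))) ^ 2 := by ring
      _ ≤ 1 * (d * (d : ℝ) ^ (-(c' / 3))) ^ 2 :=
          mul_le_mul_of_nonneg_right this (by positivity)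
      _ = _ := one_mul _
  · rw [one_mul] at e6
    have h1 := le_abs_self (Real.log (d : ℝ) ^ 6)
    rw [Real.norm_eq_abs, Real.norm_eq_abs, abs_of_pos hd] at e6
    exact h1.trans e6
  · have h1 : ((2 ^ Nat.log 2 d : ℕ) : ℝ) ≤ d := by
      exact_mod_cast Nat.pow_log_le_self 2 (by omega : d ≠ 0)
    have h2 := Real.log_le_log (by positivity) h1
    push_cast at h2
    rw [Real.log_pow] at h2
    have h3 : (1 : ℝ) / 2 ≤ Real.log 2 := by
      have := Real.log_two_gt_d9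
      linarith
    have h4 : (0 : ℝ) ≤ (Nat.log 2 d : ℝ) := Nat.cast_nonneg _
    push_cast
    nlinarith
  · have h1 : 12 * (d : ℝ) / Real.log d ≤ θ * d / 2 := by
      rw [div_le_iff₀ hl0]
      rw [div_le_iff₀ hθ] at e5
      nlinarith
    have h2 : Real.log (d : ℝ) ^ 5 * (d : ℝ) ^ (-(c' / 3)) ≤ θ / 24 := by
      have h3 : Real.log (d : ℝ) ^ (5 : ℝ) = Real.log (d : ℝ) ^ 5 := by
        rw [← Real.rpow_natCast]
        norm_num
      rw [h3, Real.norm_eq_abs, Real.norm_eq_abs, abs_of_pos p1] at e7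
      have h4 := (le_abs_self _).trans e7
      calc Real.log (d : ℝ) ^ 5 * (d : ℝ) ^ (-(c' / 3))
          ≤ θ / 24 * (d : ℝ) ^ (c' / 3) * (d : ℝ) ^ (-(c' / 3)) :=
            mul_le_mul_of_nonneg_right h4 p2.le
        _ = θ / 24 * ((d : ℝ) ^ (-(c' / 3)) * (d : ℝ) ^ (c' / 3)) := by ring
        _ = θ / 24 := by rw [q2, mul_one]
    have h5 : 6 * Real.log (d : ℝ) ^ 5 * ((d : ℝ) ^ (1 - c' / 3) + (d : ℝ) ^ (-c') * d) ≤
        θ * d / 2 := by
      rw [q1]
      calc 6 * Real.log (d : ℝ) ^ 5 * (d * (d : ℝ) ^ (-(c' / 3)) + (d : ℝ) ^ (-c') * d)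
          ≤ 6 * Real.log (d : ℝ) ^ 5 * (d * (d : ℝ) ^ (-(c' / 3)) +
            (d : ℝ) ^ (-(c' / 3)) * d) := by
            refine mul_le_mul_of_nonneg_left ?_ (by positivity)
            have := mul_le_mul_of_nonneg_right q3 hd.le
            linarith
        _ = 12 * d * (Real.log (d : ℝ) ^ 5 * (d : ℝ) ^ (-(c' / 3))) := by ring
        _ ≤ 12 * d * (θ / 24) := mul_le_mul_of_nonneg_left h2 (by positivity)
        _ = θ * d / 2 := by ring
    linarith

/-- **CFG** -/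
theorem stmt_CFG : Stmt_CFG.{u} := by
  intro τ e hτ he
  refine ⟨⟨fun _ => 1, fun _ _ => 1, fun _ _ _ => 1, fun _ _ _ _ => 1,
    fun _ _ _ _ ζ => min (min ζ τ / 10 ^ 5) 1⟩,
    ⟨fun _ _ => one_pos, fun _ _ _ _ => one_pos, fun _ _ _ _ _ _ => one_pos,
    fun _ _ _ _ _ _ _ _ => one_pos, fun _ _ _ _ _ _ _ _ _ h => ?_⟩, ?_⟩
  · exact lt_min (div_pos (lt_min h hτ) (by norm_num)) one_pos
  intro J S c' hS hc'
  have hθ : ∀ s, 0 < (S s).θ := fun s => (hS s).θ.1
  have hθ1 : ∀ s, (S s).θ ≤ 1 := fun s => (hS s).θ.2.trans (min_le_right _ _)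
  have hθ2 : ∀ s, (S s).θ ≤ (S s).ζ / 10 ^ 5 := fun s =>
    ((hS s).θ.2.trans (min_le_left _ _)).trans
      (div_le_div_of_nonneg_right (min_le_left _ _) (by norm_num))
  have hθ3 : ∀ s, (S s).θ ≤ τ / 10 ^ 5 := fun s =>
    ((hS s).θ.2.trans (min_le_left _ _)).trans
      (div_le_div_of_nonneg_right (min_le_right _ _) (by norm_num))
  have hev : ∀ᶠ d : ℕ in Filter.atTop, ∀ s, NumP d (S s).θ ((d : ℝ) ^ (-c'))
      ((d : ℝ) ^ (1 - c' / 3)) :=
    Filter.eventually_all.2 fun s => num_ev _ _ (hθ s) (hθ1 s) hc'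
  obtain ⟨d0, hd0⟩ := Filter.eventually_atTop.1 hev
  refine ⟨d0, ?_⟩
  intro V _ N G d X C g z θk θ' η M hd hX
  have hN := hd0 d hd
  set m0 := (d : ℝ) ^ (1 - c' / 3) with hm0
  refine ⟨Cfg S G d X m0, ULift.{u} (Fin N × Bool × Fin (d + 1)), inferInstance,
    Zc S G d X m0, ⟨?_, cfg_deg hX hθ hN, cap_Zc hX hθ hN, ?_⟩, ?_⟩
  · rintro v w ⟨_, n, h1, h2⟩
    have h3 : cd S G d X m0 n w ≠ none := h2 ▸ h1
    exact ⟨cod_O h1, cod_O h3⟩
  · intro y v hv
    exact (mem_filter.1 hv).2.1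
  intro c h1 h2
  have hcol := colP hX hN h1 h2
  have inj : ∀ n (L : ℝ), 4 * (S (X.sc n)).θ * d ≤ L → ∀ w w', Ow G X d w → Ow G X d w' →
      w ≠ w' → L ≤ ((nb G w ∩ pV X.P n).card : ℝ) → L ≤ ((nb G w' ∩ pV X.P n).card : ℝ) →
      c w ≠ c w' := by
    intro n L hL w w' hO hO' hne hw hw'
    have a1 : cod (Fn G X n) (Ow G X d) (In X n) d (S (X.sc n)).θ m0 w = some (0, 0) :=
      cod_00 hO (hL.trans hw)
    have a2 : cod (Fn G X n) (Ow G X d) (In X n) d (S (X.sc n)).θ m0 w' = some (0, 0) :=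
      cod_00 hO' (hL.trans hw')
    exact (hcol n).ne w w' hne (by rw [a1]; simp) (a1.trans a2.symm)
  have sm : ∀ n (L : ℝ), 0 ≤ L → ∀ b, ((∑ w ∈ univ.filter (fun w => Ow G X d w ∧ c w = b ∧
      ((nb G w ∩ pV X.P n).card : ℝ) < L), (nb G w ∩ pV X.P n).card : ℕ) : ℝ) ≤
      L + 25 * (S (X.sc n)).θ * d := by
    intro n L hL b
    rw [Nat.cast_sum]
    exact sum_all (oneP hX hθ n) (hN (X.sc n)) (hcol n) b L hL
  have hd' : (0 : ℝ) ≤ d := Nat.cast_nonneg _
  refine ⟨?_, ?_, ?_, ?_⟩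
  · intro n _ w w' hO hO' hne hw hw'
    refine inj n _ ?_ w w' hO hO' hne hw hw'
    have h3 := hθ2 (X.sc n)
    have h4 := (hS (X.sc n)).ζ.1
    exact mul_le_mul_of_nonneg_right (by linarith) hd'
  · intro n _ b
    have h4 := (hS (X.sc n)).ζ.1
    refine (sm n _ (by positivity) b).trans ?_
    have h3 := mul_le_mul_of_nonneg_right (hθ2 (X.sc n)) hd'
    have h5 : 0 ≤ (S (X.sc n)).ζ * d := by positivity
    nlinarith
  · intro n _ w w' hO hO' hne hw hw'
    refine inj n _ ?_ w w' hO hO' hne hw hw'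
    have h3 := hθ3 (X.sc n)
    exact mul_le_mul_of_nonneg_right (by linarith) hd'
  · intro n _ b
    refine (sm n _ (by positivity) b).trans ?_
    have h3 := mul_le_mul_of_nonneg_right (hθ3 (X.sc n)) hd'
    have h5 : 0 ≤ τ * d := by positivity
    have h6 := mul_le_mul_of_nonneg_right he hd'
    nlinarith

end Pool.Agent.Work.MP_db9399_cfg_helper44
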