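import Pool.Agent.Work.MP_db9399_cfg_helper44.Stmt

/-!
# MP_db9399, all scales, block CFG: one piece (helper44)

`F w` = number of the neighbours of `w` in the piece, `I w`: `w` is in the cluster of the piece,
`O w`: `w` gets its own colour.
-/

set_option autoImplicit false

namespace Pool.Agent.Work.MP_db9399_cfg_helper44

open Finset Classical

universe u

section one
variable {V : Type u} [Fintype V]

/-- groups of size at most `s` -/
noncomputable def fgr (A : Finset V) (s : ℕ) (w : V) : ℕ :=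
  if h : w ∈ A then (A.equivFin ⟨w, h⟩ : ℕ) / s else 0

omit [Fintype V] in
lemma fgr_card (A : Finset V) (s : ℕ) (hs : 1 ≤ s) (q : ℕ) :
    (A.filter (fun w => fgr A s w = q)).card ≤ s := by
  have h : (A.filter (fun w => fgr A s w = q)).card ≤ (Finset.Ico (q * s) (q * s + s)).card := by
    refine card_le_card_of_injOn
      (fun w => if h : w ∈ A then (A.equivFin ⟨w, h⟩ : ℕ) else 0) ?_ ?_
    · intro w hw
      have hw' := mem_filter.1 (mem_coe.1 hw)
      have h1 := hw'.2
      unfold fgr at h1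
      rw [dif_pos hw'.1] at h1
      simp only [coe_Ico, Set.mem_Ico, dif_pos hw'.1]
      have h2 := Nat.div_add_mod ((A.equivFin ⟨w, hw'.1⟩ : ℕ)) s
      have h3 := Nat.mod_lt ((A.equivFin ⟨w, hw'.1⟩ : ℕ)) (show s > 0 by omega)
      rw [h1] at h2
      constructor
      · rw [← h2, mul_comm]; exact Nat.le_add_right _ _
      · rw [← h2, mul_comm q s]; exact Nat.add_lt_add_left h3 _
    · intro w hw w' hw' h
      have a1 := (mem_filter.1 (mem_coe.1 hw)).1
      have a2 := (mem_filter.1 (mem_coe.1 hw')).1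
      simp only [dif_pos a1, dif_pos a2] at h
      have h3 := A.equivFin.injective (Fin.ext h)
      exact congrArg Subtype.val h3
  simpa using h

omit [Fintype V] in
lemma fgr_le (A : Finset V) (s : ℕ) (w : V) (hw : w ∈ A) : fgr A s w ≤ A.card / s := by
  unfold fgr
  rw [dif_pos hw]
  exact Nat.div_le_div_right (le_of_lt (A.equivFin ⟨w, hw⟩).2)

/-- the level `j` needs groups -/
def hi (d j : ℕ) : Prop := 1 ≤ j ∧ (d : ℝ) ≤ 2 ^ j * Real.log d ^ 6

/-- the level `j` inside the cluster -/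
noncomputable def lev (F : V → ℕ) (O I : V → Prop) (d : ℕ) (θ : ℝ) (j : ℕ) : Finset V :=
  univ.filter (fun w => O w ∧ I w ∧ (F w : ℝ) < 4 * θ * d ∧ Nat.log 2 (F w) = j)

/-- the codes of the groups -/
noncomputable def cod (F : V → ℕ) (O I : V → Prop) (d : ℕ) (θ m0 : ℝ) (w : V) :
    Option (ℕ × ℕ) :=
  if O w then
    if 4 * θ * d ≤ F w then some (0, 0)
    else if I w then
      if hi d (Nat.log 2 (F w)) then
        some (Nat.log 2 (F w) + 2,
          fgr (lev F O I d θ (Nat.log 2 (F w))) (2 ^ (Nat.log 2 (F w) - 1)) w)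
      else none
    else if m0 ≤ F w then some (1, 0) else none
  else none

/-- the caps -/
noncomputable def zc (F : V → ℕ) (O I : V → Prop) (d : ℕ) (θ m0 : ℝ) (i : Bool) (j : ℕ) :
    Finset V :=
  univ.filter (fun w => O w ∧ 1 ≤ F w ∧ cod F O I d θ m0 w = none ∧ (I w ↔ i = true) ∧
    Nat.log 2 (F w) = j)

/-- the numbers -/
structure NumP (d : ℕ) (θ a m0 : ℝ) : Prop where
  d1 : 1 ≤ d
  θ0 : 0 < θ
  θ1 : θ ≤ 1
  θd : 1 ≤ 4 * θ * d
  a0 : 0 ≤ a
  a1 : a ≤ 1
  h1 : a ≤ 2 * θ ^ 2
  m0p : 0 < m0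
  h2 : 2 * (a * (d : ℝ) ^ 2) ≤ m0 ^ 2
  lg : 1 ≤ Real.log d
  lg6 : Real.log d ^ 6 ≤ d
  lev : ((Nat.log 2 d + 1 : ℕ) : ℝ) ≤ 3 * Real.log d
  sm : 12 * d / Real.log d + 6 * Real.log d ^ 5 * (m0 + a * d) ≤ θ * d

/-- one piece -/
structure OneP (F : V → ℕ) (O I : V → Prop) (d : ℕ) (θ a : ℝ) : Prop where
  Fd : ∀ w, F w ≤ d
  inn : ((univ.filter (fun w => O w ∧ I w)).card : ℝ) ≤ θ * d
  out : ((∑ w ∈ univ.filter (fun w => O w ∧ ¬ I w), F w : ℕ) : ℝ) ≤ a * (d : ℝ) ^ 2

variable {F : V → ℕ} {O I : V → Prop} {d : ℕ} {θ a m0 : ℝ}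

lemma cod_O {w : V} (h : cod F O I d θ m0 w ≠ none) : O w := by
  by_contra h'
  exact h (by unfold cod; rw [if_neg h'])

lemma cod_00 {w : V} (hO : O w) (h : 4 * θ * d ≤ F w) : cod F O I d θ m0 w = some (0, 0) := by
  unfold cod
  rw [if_pos hO, if_pos h]

/-- inversion: code `(0, 0)` -/
lemma cod_inv0 {w : V} {q : ℕ} (h : cod F O I d θ m0 w = some (0, q)) :
    O w ∧ 4 * θ * d ≤ F w := by
  by_cases h1 : O w
  · by_cases h2 : 4 * θ * d ≤ F w
    · exact ⟨h1, h2⟩
    · unfold cod at h
      rw [if_pos h1, if_neg h2] at h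
      split_ifs at h
      · have := congrArg Prod.fst (Option.some.inj h)
        simp at this
      · have := congrArg Prod.fst (Option.some.inj h)
        simp at this
  · unfold cod at h
    rw [if_neg h1] at h
    exact absurd h (by simp)

/-- inversion: code `(1, 0)` -/
lemma cod_inv1 {w : V} {q : ℕ} (h : cod F O I d θ m0 w = some (1, q)) :
    O w ∧ ¬ I w ∧ m0 ≤ F w ∧ (F w : ℝ) < 4 * θ * d := by
  by_cases h1 : O w
  · by_cases h2 : 4 * θ * d ≤ F w
    · unfold cod at h
      rw [if_pos h1, if_pos h2] at h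
      have := congrArg Prod.fst (Option.some.inj h)
      simp at this
    · by_cases h3 : I w
      · unfold cod at h
        rw [if_pos h1, if_neg h2, if_pos h3] at h
        split_ifs at h
        have := congrArg Prod.fst (Option.some.inj h)
        simp at this
      · by_cases h4 : m0 ≤ F w
        · exact ⟨h1, h3, h4, not_le.1 h2⟩
        · unfold cod at h
          rw [if_pos h1, if_neg h2, if_neg h3, if_neg h4] at h
          exact absurd h (by simp)
  · unfold cod at h
    rw [if_neg h1] at h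
    exact absurd h (by simp)

/-- inversion: code `(j + 2, q)` -/
lemma cod_inv2 {w : V} {j q : ℕ} (h : cod F O I d θ m0 w = some (j + 2, q)) :
    w ∈ lev F O I d θ j ∧ hi d j ∧ fgr (lev F O I d θ j) (2 ^ (j - 1)) w = q := by
  by_cases h1 : O w
  · by_cases h2 : 4 * θ * d ≤ F w
    · unfold cod at h
      rw [if_pos h1, if_pos h2] at h
      have := congrArg Prod.fst (Option.some.inj h)
      simp at this
    · by_cases h3 : I w
      · by_cases h4 : hi d (Nat.log 2 (F w))
        · unfold cod at h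
          rw [if_pos h1, if_neg h2, if_pos h3, if_pos h4] at h
          have h6 := Option.some.inj h
          have h7 : Nat.log 2 (F w) = j := by
            have := congrArg Prod.fst h6
            simpa using this
          have h8 := congrArg Prod.snd h6
          simp only at h8
          rw [h7] at h4 h8
          refine ⟨?_, h4, h8⟩
          unfold lev
          exact mem_filter.2 ⟨mem_univ _, h1, h3, not_le.1 h2, h7⟩
        · unfold cod at h
          rw [if_pos h1, if_neg h2, if_pos h3, if_neg h4] at h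
          exact absurd h (by simp)
      · unfold cod at h
        rw [if_pos h1, if_neg h2, if_neg h3] at h
        split_ifs at h
        have := congrArg Prod.fst (Option.some.inj h)
        simp at this
  · unfold cod at h
    rw [if_neg h1] at h
    exact absurd h (by simp)

lemma out_card (hP : OneP F O I d θ a) (m : ℝ) :
    ((univ.filter (fun w => O w ∧ ¬ I w ∧ m ≤ F w)).card : ℝ) * m ≤ a * (d : ℝ) ^ 2 := by
  refine le_trans ?_ hP.out
  push_cast
  calc ((univ.filter (fun w => O w ∧ ¬ I w ∧ m ≤ F w)).card : ℝ) * m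
      = ∑ w ∈ univ.filter (fun w => O w ∧ ¬ I w ∧ m ≤ F w), m := by
        rw [sum_const, nsmul_eq_mul]
    _ ≤ ∑ w ∈ univ.filter (fun w => O w ∧ ¬ I w ∧ m ≤ F w), (F w : ℝ) :=
        sum_le_sum fun w hw => (mem_filter.1 hw).2.2.2
    _ ≤ ∑ w ∈ univ.filter (fun w => O w ∧ ¬ I w), (F w : ℝ) :=
        sum_le_sum_of_subset_of_nonneg (fun w hw => mem_filter.2 ⟨mem_univ _,
          (mem_filter.1 hw).2.1, (mem_filter.1 hw).2.2.1⟩) fun _ _ _ => Nat.cast_nonneg _

omit [Fintype V] in
lemma pow_le_F {w : V} {j : ℕ} (h1 : 1 ≤ F w) (h : Nat.log 2 (F w) = j) : 2 ^ j ≤ F w := by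
  rw [← h]; exact Nat.pow_log_le_self 2 (by omega)

omit [Fintype V] in
lemma F_lt_pow {w : V} {j : ℕ} (h : Nat.log 2 (F w) = j) : F w < 2 ^ (j + 1) := by
  rw [← h]; exact Nat.lt_pow_succ_log_self (by norm_num) _

/-- the groups are small -/
lemma cod_card (hP : OneP F O I d θ a) (hN : NumP d θ a m0) {w : V}
    (h : cod F O I d θ m0 w ≠ none) :
    2 * (univ.filter (fun w' => cod F O I d θ m0 w' = cod F O I d θ m0 w)).card ≤ F w := by
  obtain ⟨⟨k, q⟩, hk⟩ := Option.ne_none_iff_exists'.1 h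
  have hd : (0 : ℝ) < d := by exact_mod_cast hN.d1
  have hθ := hN.θ0
  rw [hk]
  rcases k with _ | _ | j
  · obtain ⟨hO, hF⟩ := cod_inv0 hk
    have s1 : (univ.filter (fun w' => cod F O I d θ m0 w' = some (0, q))) ⊆
        univ.filter (fun w => O w ∧ I w) ∪
          univ.filter (fun w => O w ∧ ¬ I w ∧ 4 * θ * d ≤ F w) := by
      intro w' hw'
      obtain ⟨h1, h2⟩ := cod_inv0 (mem_filter.1 hw').2
      by_cases hI : I w'
      · exact mem_union_left _ (mem_filter.2 ⟨mem_univ _, h1, hI⟩)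
      · exact mem_union_right _ (mem_filter.2 ⟨mem_univ _, h1, hI, h2⟩)
    have s2 := (card_le_card s1).trans (card_union_le _ _)
    have s3 := hP.inn
    have s4 := out_card hP (4 * θ * d)
    have s5 : ((univ.filter (fun w => O w ∧ ¬ I w ∧ 4 * θ * d ≤ F w)).card : ℝ) ≤
        θ * d / 2 := by
      have h4 : (0 : ℝ) < 4 * θ * d := by positivity
      rw [← mul_le_mul_iff_left₀ h4]
      refine s4.trans ?_
      have := mul_le_mul_of_nonneg_right hN.h1 (by positivity : (0 : ℝ) ≤ (d : ℝ) ^ 2)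
      nlinarith
    have s2' : ((univ.filter (fun w' => cod F O I d θ m0 w' = some (0, q))).card : ℝ) ≤
        (univ.filter (fun w => O w ∧ I w)).card +
          (univ.filter (fun w => O w ∧ ¬ I w ∧ 4 * θ * d ≤ F w)).card := by
      exact_mod_cast s2
    have : (2 : ℝ) * (univ.filter (fun w' => cod F O I d θ m0 w' = some (0, q))).card ≤
        F w := by
      have : 0 < θ * d := by positivity
      linarith
    exact_mod_cast this
  · obtain ⟨hO, hI, hm, hF⟩ := cod_inv1 hk
    have s1 : (univ.filter (fun w' => cod F O I d θ m0 w' = some (0 + 1, q))) ⊆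
          univ.filter (fun w => O w ∧ ¬ I w ∧ m0 ≤ F w) := by
      intro w' hw'
      obtain ⟨h1, h2, h3, _⟩ := cod_inv1 (mem_filter.1 hw').2
      exact mem_filter.2 ⟨mem_univ _, h1, h2, h3⟩
    have s2 := card_le_card s1
    have s2' : ((univ.filter (fun w' => cod F O I d θ m0 w' = some (0 + 1, q))).card : ℝ) ≤
        (univ.filter (fun w => O w ∧ ¬ I w ∧ m0 ≤ F w)).card := by exact_mod_cast s2
    have s4 := out_card hP m0
    have s5 : ((univ.filter (fun w => O w ∧ ¬ I w ∧ m0 ≤ F w)).card : ℝ) ≤ m0 / 2 := by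
      rw [← mul_le_mul_iff_left₀ hN.m0p]
      refine s4.trans ?_
      have := hN.h2
      nlinarith
    have : (2 : ℝ) * (univ.filter (fun w' => cod F O I d θ m0 w' = some (0 + 1, q))).card ≤
        F w := by linarith
    exact_mod_cast this
  · obtain ⟨hl, hj, hq⟩ := cod_inv2 hk
    have s1 : (univ.filter (fun w' => cod F O I d θ m0 w' = some (j + 1 + 1, q))) ⊆
          (lev F O I d θ j).filter (fun w => fgr (lev F O I d θ j) (2 ^ (j - 1)) w = q) := by
      intro w' hw'
      obtain ⟨h1, h2, h3⟩ := cod_inv2 (mem_filter.1 hw').2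
      exact mem_filter.2 ⟨h1, h3⟩
    have s2 := (card_le_card s1).trans (fgr_card _ (2 ^ (j - 1)) Nat.one_le_two_pow q)
    have hl' := (mem_filter.1 hl).2
    have hF1 : 1 ≤ F w := by
      by_contra h0
      have : F w = 0 := by omega
      have h1 := hl'.2.2.2
      rw [this] at h1
      simp at h1
      have := hj.1
      omega
    have s3 := pow_le_F hF1 hl'.2.2.2
    have s4 : 2 * 2 ^ (j - 1) = 2 ^ j := by
      have := hj.1
      obtain ⟨i, rfl⟩ : ∃ i, j = i + 1 := ⟨j - 1, by omega⟩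
      simp [pow_succ, mul_comm]
    calc 2 * (univ.filter (fun w' => cod F O I d θ m0 w' = some (j + 1 + 1, q))).card
        ≤ 2 * 2 ^ (j - 1) := Nat.mul_le_mul_left 2 s2
      _ = 2 ^ j := s4
      _ ≤ F w := s3

omit [Fintype V] in
/-- the sum over one group -/
lemma sum_one (c : V → ℕ) (b : ℕ) (A : Finset V) (L : ℝ) (hL : 0 ≤ L)
    (hA : ∀ w ∈ A, ∀ w' ∈ A, c w = b → c w' = b → w = w') (hF : ∀ w ∈ A, (F w : ℝ) ≤ L) :
    ∑ w ∈ A.filter (fun w => c w = b), (F w : ℝ) ≤ L := by
  have h1 : (A.filter (fun w => c w = b)).card ≤ 1 := by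
    refine card_le_one.2 fun w hw w' hw' => ?_
    have h1 := mem_filter.1 hw
    have h2 := mem_filter.1 hw'
    exact hA w h1.1 w' h2.1 h1.2 h2.2
  calc ∑ w ∈ A.filter (fun w => c w = b), (F w : ℝ)
      ≤ (A.filter (fun w => c w = b)).card • L :=
        sum_le_card_nsmul _ _ _ fun w hw => hF w (mem_filter.1 hw).1
    _ ≤ 1 • L := by
        rw [nsmul_eq_mul, nsmul_eq_mul]
        exact mul_le_mul_of_nonneg_right (by exact_mod_cast h1) hL
    _ = L := one_smul _ _

end one

end Pool.Agent.Work.MP_db9399_cfg_helper44
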