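import Pool.Agent.Work.MP_db9399_xf_helper62.XFrame
import Pool.Agent.Work.MP_db9399_owc.Interface

/-!
# MP_db9399, all scales, block CFG: the statement (helper44; plan of helper72, message 23823)

Conflict graph and caps for the own colours of the outside stage: every own colouring of the vertices
of `Ow` which is proper on the conflict graph and has fine bounds for the multiplicities of the
colours in the caps satisfies `big`, `sml`, `dif`, `non` of `OwX`.
-/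

set_option autoImplicit false

namespace Pool.Agent.Work.MP_db9399_cfg_helper44

open Finset Classical
open Pool.Agent.Work.MP_db9399_all (nb)
open Pool.Agent.Work.MP_db9399_da
open Pool.Agent.Work.MP_db9399_xf
open Pool.Agent.Work.MP_db9399_owc (Cap)

universe u

section defs
variable {V : Type u} [Fintype V] {N J : ℕ}

/-- the fields `big`, `sml`, `dif`, `non` of `OwX` -/
structure CfO (τ e u : ℝ) (S : Fin J → Scl) (G : SimpleGraph V) (d : ℕ) (X : XD V N J)
    (c : V → ℕ) (O : V → Prop) : Prop where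
  big : ∀ n, X.P.ty n = Ty.B → ∀ w w', O w → O w' → w ≠ w' →
    (S (X.sc n)).ζ / 1000 * d ≤ ((nb G w ∩ pV X.P n).card : ℝ) →
    (S (X.sc n)).ζ / 1000 * d ≤ ((nb G w' ∩ pV X.P n).card : ℝ) → c w ≠ c w'
  sml : ∀ n, X.P.ty n = Ty.B → ∀ b, ((∑ w ∈ univ.filter (fun w => O w ∧ c w = b ∧
    ((nb G w ∩ pV X.P n).card : ℝ) < (S (X.sc n)).ζ / 1000 * d),
      (nb G w ∩ pV X.P n).card : ℕ) : ℝ) ≤ u * (S (X.sc n)).ζ * d
  dif : ∀ n, X.P.ty n = Ty.K → ∀ w w', O w → O w' → w ≠ w' →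
    τ * d ≤ ((nb G w ∩ pV X.P n).card : ℝ) → τ * d ≤ ((nb G w' ∩ pV X.P n).card : ℝ) →
    c w ≠ c w'
  non : ∀ n, X.P.ty n = Ty.K → ∀ b, ((∑ w ∈ univ.filter (fun w => O w ∧ c w = b ∧
    ((nb G w ∩ pV X.P n).card : ℝ) < τ * d), (nb G w ∩ pV X.P n).card : ℕ) : ℝ) ≤ e * d

/-- The conflict graph `Cf` and the caps `Z`. `deg`: the conflict edges at `v` are at most half as
many as the neighbours of `v` outside `Ow`. -/
structure CfG (G : SimpleGraph V) (d : ℕ) (X : XD V N J) {Y : Type u} [Fintype Y]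
    (Cf : SimpleGraph V) (Z : Y → Finset V) : Prop where
  ow : ∀ v w, Cf.Adj v w → Ow G X d v ∧ Ow G X d w
  deg : ∀ v, 2 * (nb Cf v).card ≤ ((nb G v).filter (fun w => ¬ Ow G X d w)).card
  cap : Cap d Z
  zow : ∀ y, ∀ v ∈ Z y, Ow G X d v

end defs

/-- **CFG**. -/
def Stmt_CFG : Prop :=
  ∀ τ e : ℝ, 0 < τ → 8 * τ ≤ e → ∃ T : Thr, T.Pos ∧
    ∀ (J : ℕ) (S : Fin J → Scl) (c' : ℝ), (∀ s, Adm T (S s)) → 0 < c' → ∃ d0 : ℕ,
    ∀ {V : Type u} [Fintype V] {N : ℕ} (G : SimpleGraph V) (d : ℕ) (X : XD V N J)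
      (C g z θk θ' η : ℝ) (M : ℕ), d0 ≤ d → PcD C g z θk θ' η ((d : ℝ) ^ (-c')) M S G d X →
      ∃ (Cf : SimpleGraph V) (Y : Type u) (_ : Fintype Y) (Z : Y → Finset V), CfG G d X Cf Z ∧
        ∀ c : V → ℕ, (∀ v w, Cf.Adj v w → c v ≠ c w) →
          (∀ y b, (((Z y).filter (fun v => c v = b)).card : ℝ) ≤
            Real.log d ^ 4 * (1 + ((Z y).card : ℝ) / d)) →
          CfO τ e (1 / 250) S G d X c (Ow G X d)

end Pool.Agent.Work.MP_db9399_cfg_helper44
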