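import Pool.Agent.Work.MP_db9399_cfg_helper44.One

/-!
# MP_db9399, all scales, block CFG: the sums over one colour at one piece (helper44)
-/

set_option autoImplicit false

namespace Pool.Agent.Work.MP_db9399_cfg_helper44

open Finset Classical

universe u

section one
variable {V : Type u} [Fintype V]
variable {F : V → ℕ} {O I : V → Prop} {d : ℕ} {θ a m0 : ℝ}

/-- the four kinds of vertices -/
lemma cod_kind {w : V} (hO : O w) : cod F O I d θ m0 w = none ∨
    cod F O I d θ m0 w = some (0, 0) ∨ cod F O I d θ m0 w = some (1, 0) ∨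
    ∃ j, hi d j ∧ w ∈ lev F O I d θ j ∧
      cod F O I d θ m0 w = some (j + 2, fgr (lev F O I d θ j) (2 ^ (j - 1)) w) := by
  by_cases h2 : 4 * θ * d ≤ F w
  · exact Or.inr (Or.inl (cod_00 hO h2))
  · by_cases h3 : I w
    · by_cases h4 : hi d (Nat.log 2 (F w))
      · refine Or.inr (Or.inr (Or.inr ⟨Nat.log 2 (F w), h4, ?_, ?_⟩))
        · unfold lev
          exact mem_filter.2 ⟨mem_univ _, hO, h3, not_le.1 h2, rfl⟩
        · unfold cod
          rw [if_pos hO, if_neg h2, if_pos h3, if_pos h4]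
      · left
        unfold cod
        rw [if_pos hO, if_neg h2, if_pos h3, if_neg h4]
    · by_cases h4 : m0 ≤ F w
      · right; right; left
        unfold cod
        rw [if_pos hO, if_neg h2, if_neg h3, if_pos h4]
      · left
        unfold cod
        rw [if_pos hO, if_neg h2, if_neg h3, if_neg h4]

/-- `none`: the value is small -/
lemma cod_none {w : V} (hO : O w) (h : cod F O I d θ m0 w = none) :
    (I w ∧ ¬ hi d (Nat.log 2 (F w))) ∨ (¬ I w ∧ (F w : ℝ) < m0) := by
  by_cases h2 : 4 * θ * d ≤ F w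
  · rw [cod_00 hO h2] at h
    exact absurd h (by simp)
  · by_cases h3 : I w
    · refine Or.inl ⟨h3, fun h4 => ?_⟩
      unfold cod at h
      rw [if_pos hO, if_neg h2, if_pos h3, if_pos h4] at h
      exact absurd h (by simp)
    · refine Or.inr ⟨h3, ?_⟩
      by_contra h4
      unfold cod at h
      rw [if_pos hO, if_neg h2, if_neg h3, if_pos (not_lt.1 h4)] at h
      exact absurd h (by simp)

/-- conditions on the colouring at one piece -/
structure ColP (F : V → ℕ) (O I : V → Prop) (d : ℕ) (θ m0 : ℝ) (c : V → ℕ) : Prop where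
  ne : ∀ w w', w ≠ w' → cod F O I d θ m0 w ≠ none →
    cod F O I d θ m0 w = cod F O I d θ m0 w' → c w ≠ c w'
  cap : ∀ i j b, (((zc F O I d θ m0 i j).filter (fun w => c w = b)).card : ℝ) ≤
    Real.log d ^ 4 * (1 + ((zc F O I d θ m0 i j).card : ℝ) / d)

lemma ColP.eq {c : V → ℕ} (hc : ColP F O I d θ m0 c) {b : ℕ} {w w' : V}
    (h : cod F O I d θ m0 w ≠ none) (h' : cod F O I d θ m0 w = cod F O I d θ m0 w')
    (e : c w = b) (e' : c w' = b) : w = w' := by
  by_contra hne
  exact hc.ne w w' hne h h' (e.trans e'.symm)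

/-- one level with groups -/
lemma sum_lev {c : V → ℕ} (hc : ColP F O I d θ m0 c) (b j : ℕ) (hj : 1 ≤ j) :
    ∑ w ∈ (lev F O I d θ j).filter (fun w => c w = b ∧
      cod F O I d θ m0 w = some (j + 2, fgr (lev F O I d θ j) (2 ^ (j - 1)) w)), (F w : ℝ) ≤
      4 * ((lev F O I d θ j).card : ℝ) + 2 * 2 ^ j := by
  set T := (lev F O I d θ j).filter (fun w => c w = b ∧
      cod F O I d θ m0 w = some (j + 2, fgr (lev F O I d θ j) (2 ^ (j - 1)) w)) with hT
  have h1 : T.card ≤ (lev F O I d θ j).card / 2 ^ (j - 1) + 1 := by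
    have h2 : T.card ≤ (range ((lev F O I d θ j).card / 2 ^ (j - 1) + 1)).card := by
      refine card_le_card_of_injOn (fgr (lev F O I d θ j) (2 ^ (j - 1))) ?_ ?_
      · intro w hw
        have hw' := (mem_filter.1 (mem_coe.1 hw)).1
        have := fgr_le _ (2 ^ (j - 1)) w hw'
        exact mem_coe.2 (mem_range.2 (by omega))
      · intro w hw w' hw' hww
        have h3 := (mem_filter.1 (mem_coe.1 hw)).2
        have h4 := (mem_filter.1 (mem_coe.1 hw')).2
        refine hc.eq (b := b) (by rw [h3.2]; simp) ?_ h3.1 h4.1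
        rw [h3.2, h4.2, hww]
    simpa using h2
  have h5 : ∑ w ∈ T, F w ≤ T.card * 2 ^ (j + 1) := by
    rw [← smul_eq_mul]
    refine sum_le_card_nsmul _ _ _ fun w hw => ?_
    have h6 := (mem_filter.1 (mem_filter.1 hw).1).2.2.2.2
    exact le_of_lt (F_lt_pow h6)
  have h7 : T.card * 2 ^ (j + 1) ≤ 4 * (lev F O I d θ j).card + 2 * 2 ^ j := by
    obtain ⟨i, rfl⟩ : ∃ i, j = i + 1 := ⟨j - 1, by omega⟩
    simp only [Nat.add_sub_cancel] at h1
    calc T.card * 2 ^ (i + 1 + 1) ≤
        ((lev F O I d θ (i + 1)).card / 2 ^ i + 1) * 2 ^ (i + 1 + 1) :=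
          Nat.mul_le_mul_right _ h1
      _ = 4 * ((lev F O I d θ (i + 1)).card / 2 ^ i * 2 ^ i) + 2 * 2 ^ (i + 1) := by ring
      _ ≤ 4 * (lev F O I d θ (i + 1)).card + 2 * 2 ^ (i + 1) := by
          have := Nat.div_mul_le_self (lev F O I d θ (i + 1)).card (2 ^ i)
          omega
  exact_mod_cast h5.trans h7

/-- geometric sum -/
lemma sum_two (n : ℕ) : ∑ j ∈ range n, (2 * 2 ^ j : ℝ) ≤ 2 * 2 ^ n := by
  have : ∑ j ∈ range n, (2 * 2 ^ j : ℝ) = 2 * 2 ^ n - 2 := by
    induction n with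
    | zero => simp
    | succ n ih => rw [sum_range_succ, ih]; ring
  linarith

/-- all levels with groups -/
lemma sum_levs (hP : OneP F O I d θ a) (hN : NumP d θ a m0) {c : V → ℕ}
    (hc : ColP F O I d θ m0 c) (b : ℕ) :
    ∑ j ∈ range (Nat.log 2 ⌊4 * θ * d⌋₊ + 1),
      ∑ w ∈ (lev F O I d θ j).filter (fun w => hi d j ∧ c w = b ∧
        cod F O I d θ m0 w = some (j + 2, fgr (lev F O I d θ j) (2 ^ (j - 1)) w)), (F w : ℝ) ≤
      20 * θ * d := by
  have hd : (0 : ℝ) < d := by exact_mod_cast hN.d1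
  have hθ := hN.θ0
  set K := Nat.log 2 ⌊4 * θ * d⌋₊ with hK
  have h1 : ∀ j ∈ range (K + 1), ∑ w ∈ (lev F O I d θ j).filter (fun w => hi d j ∧ c w = b ∧
        cod F O I d θ m0 w = some (j + 2, fgr (lev F O I d θ j) (2 ^ (j - 1)) w)), (F w : ℝ) ≤
      4 * ((lev F O I d θ j).card : ℝ) + 2 * 2 ^ j := by
    intro j _
    by_cases hj : hi d j
    · have e : (lev F O I d θ j).filter (fun w => hi d j ∧ c w = b ∧
          cod F O I d θ m0 w = some (j + 2, fgr (lev F O I d θ j) (2 ^ (j - 1)) w)) =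
          (lev F O I d θ j).filter (fun w => c w = b ∧
          cod F O I d θ m0 w = some (j + 2, fgr (lev F O I d θ j) (2 ^ (j - 1)) w)) := by
        refine filter_congr fun w _ => ?_
        simp only [hj, true_and]
      rw [e]
      exact sum_lev hc b j hj.1
    · have e : (lev F O I d θ j).filter (fun w => hi d j ∧ c w = b ∧
          cod F O I d θ m0 w = some (j + 2, fgr (lev F O I d θ j) (2 ^ (j - 1)) w)) = ∅ := by
        refine filter_eq_empty_iff.2 fun w _ h => hj h.1
      rw [e, sum_empty]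
      positivity
  refine (sum_le_sum h1).trans ?_
  rw [sum_add_distrib, ← mul_sum]
  have h2 : ∑ j ∈ range (K + 1), ((lev F O I d θ j).card : ℝ) ≤ θ * d := by
    have h3 : ∑ j ∈ range (K + 1), (lev F O I d θ j).card ≤
        (univ.filter (fun w => O w ∧ I w)).card := by
      rw [← card_biUnion]
      · refine card_le_card fun w hw => ?_
        obtain ⟨j, _, hj⟩ := mem_biUnion.1 hw
        have := (mem_filter.1 hj).2
        exact mem_filter.2 ⟨mem_univ _, this.1, this.2.1⟩
      · intro i _ j _ hij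
        refine disjoint_left.2 fun w h h' => hij ?_
        exact (mem_filter.1 h).2.2.2.2.symm.trans (mem_filter.1 h').2.2.2.2
    refine le_trans ?_ hP.inn
    exact_mod_cast h3
  have h3 := sum_two (K + 1)
  have h4 : (2 : ℝ) ^ K ≤ 4 * θ * d := by
    have h5 : ⌊4 * θ * d⌋₊ ≠ 0 := by
      have := Nat.floor_pos.2 hN.θd
      omega
    have h6 := Nat.pow_log_le_self 2 h5
    have h7 : ((2 ^ K : ℕ) : ℝ) ≤ (⌊4 * θ * d⌋₊ : ℝ) := by exact_mod_cast h6
    have h8 := Nat.floor_le (show 0 ≤ 4 * θ * d by positivity)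
    push_cast at h7
    linarith
  have h5 : (2 : ℝ) ^ (K + 1) = 2 * 2 ^ K := by ring
  rw [h5] at h3
  linarith

end one

end Pool.Agent.Work.MP_db9399_cfg_helper44
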