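import Pool.Agent.Work.MP_db9399_cfg_helper44.Sum

/-!
# MP_db9399, all scales, block CFG: the caps, all vertices of one colour at one piece (helper44)
-/

set_option autoImplicit false

namespace Pool.Agent.Work.MP_db9399_cfg_helper44

open Finset Classical

universe u

section one
variable {V : Type u} [Fintype V]
variable {F : V → ℕ} {O I : V → Prop} {d : ℕ} {θ a m0 : ℝ}

/-- the caps inside are small -/
lemma zc_true (hP : OneP F O I d θ a) (j : ℕ) :
    ((zc F O I d θ m0 true j).card : ℝ) ≤ θ * d := by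
  refine le_trans ?_ hP.inn
  have : (zc F O I d θ m0 true j).card ≤ (univ.filter (fun w => O w ∧ I w)).card := by
    refine card_le_card fun w hw => ?_
    have := (mem_filter.1 hw).2
    exact mem_filter.2 ⟨mem_univ _, this.1, this.2.2.2.1.2 rfl⟩
  exact_mod_cast this

/-- the caps outside are small -/
lemma zc_false (hP : OneP F O I d θ a) (j : ℕ) :
    ((zc F O I d θ m0 false j).card : ℝ) * 2 ^ j ≤ a * (d : ℝ) ^ 2 := by
  refine le_trans ?_ hP.out
  have h : (zc F O I d θ m0 false j).card * 2 ^ j ≤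
      ∑ w ∈ univ.filter (fun w => O w ∧ ¬ I w), F w := by
    calc (zc F O I d θ m0 false j).card * 2 ^ j
        = (zc F O I d θ m0 false j).card • 2 ^ j := by rw [smul_eq_mul]
      _ ≤ ∑ w ∈ zc F O I d θ m0 false j, F w :=
          card_nsmul_le_sum _ _ _ fun w hw => by
            have := (mem_filter.1 hw).2
            exact pow_le_F this.2.1 this.2.2.2.2
      _ ≤ ∑ w ∈ univ.filter (fun w => O w ∧ ¬ I w), F w :=
          sum_le_sum_of_subset fun w hw => by
            have := (mem_filter.1 hw).2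
            refine mem_filter.2 ⟨mem_univ _, this.1, fun hI => ?_⟩
            exact absurd (this.2.2.2.1.1 hI) (by decide)
  exact_mod_cast h

/-- one cap -/
lemma sum_zc (hP : OneP F O I d θ a) (hN : NumP d θ a m0) {c : V → ℕ}
    (hc : ColP F O I d θ m0 c) (b j : ℕ) (i : Bool) :
    ∑ w ∈ (zc F O I d θ m0 i j).filter (fun w => c w = b), (F w : ℝ) ≤
      if i then 4 * d / Real.log d ^ 2 else 2 * Real.log d ^ 4 * (m0 + a * d) := by
  have hd : (0 : ℝ) < d := by exact_mod_cast hN.d1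
  have hθ := hN.θ0
  have hl : (1 : ℝ) ≤ Real.log d := hN.lg
  have hl0 : (0 : ℝ) < Real.log d := by linarith
  have hcap := hc.cap i j b
  have h1 : ∑ w ∈ (zc F O I d θ m0 i j).filter (fun w => c w = b), (F w : ℝ) ≤
      (((zc F O I d θ m0 i j).filter (fun w => c w = b)).card : ℝ) * (2 * 2 ^ j) := by
    rw [← nsmul_eq_mul]
    refine sum_le_card_nsmul _ _ _ fun w hw => ?_
    have h6 := (mem_filter.1 (mem_filter.1 hw).1).2.2.2.2.2
    have h7 := F_lt_pow h6
    have h8 : (F w : ℝ) ≤ ((2 ^ (j + 1) : ℕ) : ℝ) := by exact_mod_cast h7.le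
    push_cast at h8
    rw [pow_succ] at h8
    linarith
  by_cases he : ((zc F O I d θ m0 i j).filter (fun w => c w = b)) = ∅
  · rw [he, sum_empty]
    have := hN.m0p
    have := hN.a0
    split_ifs <;> positivity
  obtain ⟨w0, hw0⟩ := nonempty_iff_ne_empty.2 he
  have hw1 := (mem_filter.1 (mem_filter.1 hw0).1).2
  have hw2 := cod_none hw1.1 hw1.2.2.1
  cases i with
  | true =>
    simp only [if_true]
    have hI : I w0 := hw1.2.2.2.1.2 rfl
    rcases hw2 with ⟨_, h3⟩ | ⟨h3, _⟩
    swap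
    · exact absurd hI h3
    rw [hw1.2.2.2.2] at h3
    have h4 : (2 : ℝ) ^ j * Real.log d ^ 6 ≤ d := by
      by_cases hj : 1 ≤ j
      · by_contra h5
        exact h3 ⟨hj, le_of_lt (not_le.1 h5)⟩
      · have : j = 0 := by omega
        subst this
        simpa using hN.lg6
    have h5 := zc_true (m0 := m0) hP j
    have h6 : (1 + ((zc F O I d θ m0 true j).card : ℝ) / d) ≤ 2 := by
      have : ((zc F O I d θ m0 true j).card : ℝ) / d ≤ 1 := by
        rw [div_le_one hd]
        exact h5.trans (by nlinarith [hN.θ1])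
      linarith
    have h7 : (((zc F O I d θ m0 true j).filter (fun w => c w = b)).card : ℝ) ≤
        Real.log d ^ 4 * 2 := hcap.trans (mul_le_mul_of_nonneg_left h6 (by positivity))
    refine h1.trans ?_
    refine (mul_le_mul_of_nonneg_right h7 (by positivity)).trans ?_
    rw [le_div_iff₀ (by positivity)]
    calc Real.log (d : ℝ) ^ 4 * 2 * (2 * 2 ^ j) * Real.log (d : ℝ) ^ 2
        = 4 * (2 ^ j * Real.log (d : ℝ) ^ 6) := by ring
      _ ≤ 4 * (d : ℝ) := by linarith
  | false =>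
    simp only [Bool.false_eq_true, if_false]
    have hI : ¬ I w0 := fun h => absurd (hw1.2.2.2.1.1 h) (by decide)
    rcases hw2 with ⟨h3, _⟩ | ⟨_, h3⟩
    · exact absurd h3 hI
    have h4 : (2 : ℝ) ^ j ≤ m0 := by
      have h5 := pow_le_F hw1.2.1 hw1.2.2.2.2
      have h6 : ((2 ^ j : ℕ) : ℝ) ≤ F w0 := by exact_mod_cast h5
      push_cast at h6
      linarith
    have h5 := zc_false (m0 := m0) hP j
    refine h1.trans ?_
    refine (mul_le_mul_of_nonneg_right hcap (by positivity)).trans ?_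
    calc Real.log d ^ 4 * (1 + ((zc F O I d θ m0 false j).card : ℝ) / d) * (2 * 2 ^ j)
        = 2 * Real.log d ^ 4 *
          (2 ^ j + ((zc F O I d θ m0 false j).card : ℝ) * 2 ^ j / d) := by ring
      _ ≤ 2 * Real.log d ^ 4 * (m0 + a * d) := by
          refine mul_le_mul_of_nonneg_left ?_ (by positivity)
          have h6 : ((zc F O I d θ m0 false j).card : ℝ) * 2 ^ j / d ≤ a * d := by
            rw [div_le_iff₀ hd]
            calc _ ≤ a * (d : ℝ) ^ 2 := h5
              _ = a * d * d := by ring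
          linarith

/-- all caps -/
lemma sum_zcs (hP : OneP F O I d θ a) (hN : NumP d θ a m0) {c : V → ℕ}
    (hc : ColP F O I d θ m0 c) (b : ℕ) :
    ∑ i : Bool, ∑ j ∈ range (Nat.log 2 d + 1),
      ∑ w ∈ (zc F O I d θ m0 i j).filter (fun w => c w = b), (F w : ℝ) ≤ θ * d := by
  have hl : (1 : ℝ) ≤ Real.log d := hN.lg
  have hl0 : (0 : ℝ) < Real.log d := by linarith
  have hd : (0 : ℝ) < d := by exact_mod_cast hN.d1
  have hm := hN.m0p
  have ha := hN.a0
  have key : ∀ i : Bool, ∑ j ∈ range (Nat.log 2 d + 1),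
      ∑ w ∈ (zc F O I d θ m0 i j).filter (fun w => c w = b), (F w : ℝ) ≤
      3 * Real.log d *
        (if i then 4 * d / Real.log d ^ 2 else 2 * Real.log d ^ 4 * (m0 + a * d)) := by
    intro i
    have h0 : (0 : ℝ) ≤
        (if i then 4 * d / Real.log d ^ 2 else 2 * Real.log d ^ 4 * (m0 + a * d)) := by
      split_ifs <;> positivity
    calc _ ≤ (range (Nat.log 2 d + 1)).card •
        (if i then 4 * d / Real.log d ^ 2 else 2 * Real.log d ^ 4 * (m0 + a * d)) :=
          sum_le_card_nsmul _ _ _ fun j _ => sum_zc hP hN hc b j i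
      _ = ((Nat.log 2 d + 1 : ℕ) : ℝ) *
        (if i then 4 * d / Real.log d ^ 2 else 2 * Real.log d ^ 4 * (m0 + a * d)) := by
          rw [card_range, nsmul_eq_mul]
      _ ≤ _ := mul_le_mul_of_nonneg_right hN.lev h0
  rw [Fintype.sum_bool]
  refine (add_le_add (key true) (key false)).trans ?_
  simp only [if_true, Bool.false_eq_true, if_false]
  have e1 : 3 * Real.log d * (4 * d / Real.log d ^ 2) = 12 * d / Real.log d := by
    field_simp
    ring
  rw [e1]
  have e2 : 3 * Real.log d * (2 * Real.log d ^ 4 * (m0 + a * d)) =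
      6 * Real.log d ^ 5 * (m0 + a * d) := by ring
  rw [e2]
  exact hN.sm

omit [Fintype V] in
lemma sum_bU {ι : Type*} (s : Finset ι) (t : ι → Finset V) (f : V → ℝ) (hf : ∀ v, 0 ≤ f v) :
    ∑ w ∈ s.biUnion t, f w ≤ ∑ i ∈ s, ∑ w ∈ t i, f w := by
  induction s using Finset.induction_on with
  | empty => simp
  | insert i s hi ih =>
    rw [biUnion_insert, sum_insert hi]
    have h : ∑ w ∈ t i ∪ s.biUnion t, f w ≤ ∑ w ∈ t i, f w + ∑ w ∈ s.biUnion t, f w := by
      rw [← sum_union_inter]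
      exact le_add_of_nonneg_right (sum_nonneg fun w _ => hf w)
    linarith

/-- all vertices of the colour `b` with less than `L` neighbours -/
theorem sum_all (hP : OneP F O I d θ a) (hN : NumP d θ a m0) {c : V → ℕ}
    (hc : ColP F O I d θ m0 c) (b : ℕ) (L : ℝ) (hL : 0 ≤ L) :
    ∑ w ∈ univ.filter (fun w => O w ∧ c w = b ∧ (F w : ℝ) < L), (F w : ℝ) ≤
      L + 25 * θ * d := by
  have hd : (0 : ℝ) < d := by exact_mod_cast hN.d1
  have hθ := hN.θ0
  set A0 := (univ.filter (fun w => cod F O I d θ m0 w = some (0, 0) ∧ (F w : ℝ) ≤ L)).filter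
    (fun w => c w = b)
  set A1 := (univ.filter (fun w => cod F O I d θ m0 w = some (1, 0))).filter
    (fun w => c w = b)
  set A2 := (range (Nat.log 2 ⌊4 * θ * d⌋₊ + 1)).biUnion (fun j =>
    (lev F O I d θ j).filter (fun w => hi d j ∧ c w = b ∧
        cod F O I d θ m0 w = some (j + 2, fgr (lev F O I d θ j) (2 ^ (j - 1)) w)))
  set A3 := (univ : Finset Bool).biUnion (fun i => (range (Nat.log 2 d + 1)).biUnion (fun j =>
    (zc F O I d θ m0 i j).filter (fun w => c w = b)))
  have hsub : (univ.filter (fun w => O w ∧ c w = b ∧ (F w : ℝ) < L)).filter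
      (fun w => 1 ≤ F w) ⊆ A0 ∪ A1 ∪ A2 ∪ A3 := by
    intro w hw
    obtain ⟨hw0, hF1⟩ := mem_filter.1 hw
    obtain ⟨hO, hb, hF⟩ := (mem_filter.1 hw0).2
    rcases cod_kind (F := F) (O := O) (I := I) (d := d) (θ := θ) (m0 := m0) hO with
      h | h | h | ⟨j, hj, hl, h⟩
    · refine mem_union_right _ (mem_biUnion.2 ⟨decide (I w), mem_univ _,
        mem_biUnion.2 ⟨Nat.log 2 (F w), ?_, mem_filter.2 ⟨mem_filter.2 ⟨mem_univ _, hO, hF1, h,
          ?_, rfl⟩, hb⟩⟩⟩)
      · have := Nat.log_mono_right (b := 2) (hP.Fd w)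
        exact mem_range.2 (by omega)
      · simp
    · refine mem_union_left _ (mem_union_left _ (mem_union_left _ ?_))
      exact mem_filter.2 ⟨mem_filter.2 ⟨mem_univ _, h, hF.le⟩, hb⟩
    · refine mem_union_left _ (mem_union_left _ (mem_union_right _ ?_))
      exact mem_filter.2 ⟨mem_filter.2 ⟨mem_univ _, h⟩, hb⟩
    · refine mem_union_left _ (mem_union_right _ (mem_biUnion.2 ⟨j, ?_,
        mem_filter.2 ⟨hl, hj, hb, h⟩⟩))
      have h1 := (mem_filter.1 hl).2
      have h2 : F w ≤ ⌊4 * θ * d⌋₊ := Nat.le_floor h1.2.2.1.le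
      have h3 := Nat.log_mono_right (b := 2) h2
      have h4 := h1.2.2.2
      exact mem_range.2 (by omega)
  have hnn : ∀ w : V, (0 : ℝ) ≤ F w := fun w => Nat.cast_nonneg _
  have un : ∀ A B : Finset V, ∑ w ∈ A ∪ B, (F w : ℝ) ≤
      ∑ w ∈ A, (F w : ℝ) + ∑ w ∈ B, (F w : ℝ) := by
    intro A B
    rw [← sum_union_inter]
    exact le_add_of_nonneg_right (sum_nonneg fun w _ => hnn w)
  have s0 : ∑ w ∈ A0, (F w : ℝ) ≤ L := by
    refine sum_one c b _ L hL ?_ fun w hw => (mem_filter.1 hw).2.2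
    intro w hw w' hw' e e'
    have h1 := (mem_filter.1 hw).2.1
    have h2 := (mem_filter.1 hw').2.1
    exact hc.eq (by rw [h1]; simp) (h1.trans h2.symm) e e'
  have s1 : ∑ w ∈ A1, (F w : ℝ) ≤ 4 * θ * d := by
    refine sum_one c b _ _ (by positivity) ?_ fun w hw => ?_
    · intro w hw w' hw' e e'
      have h1 := (mem_filter.1 hw).2
      have h2 := (mem_filter.1 hw').2
      exact hc.eq (by rw [h1]; simp) (h1.trans h2.symm) e e'
    · exact (cod_inv1 (mem_filter.1 hw).2).2.2.2.le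
  have s2 : ∑ w ∈ A2, (F w : ℝ) ≤ 20 * θ * d := by
    exact (sum_bU _ _ _ hnn).trans (sum_levs hP hN hc b)
  have s3 : ∑ w ∈ A3, (F w : ℝ) ≤ θ * d := by
    exact ((sum_bU _ _ _ hnn).trans (sum_le_sum fun i _ =>
      sum_bU _ _ _ hnn)).trans (sum_zcs hP hN hc b)
  have s4 : ∑ w ∈ univ.filter (fun w => O w ∧ c w = b ∧ (F w : ℝ) < L), (F w : ℝ) =
      ∑ w ∈ (univ.filter (fun w => O w ∧ c w = b ∧ (F w : ℝ) < L)).filter
      (fun w => 1 ≤ F w), (F w : ℝ) := by
    symm
    refine sum_subset (filter_subset _ _) fun w hw hw' => ?_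
    have : ¬ 1 ≤ F w := fun h => hw' (mem_filter.2 ⟨hw, h⟩)
    have : F w = 0 := by omega
    rw [this]; simp
  rw [s4]
  refine (sum_le_sum_of_subset_of_nonneg hsub fun w _ _ => hnn w).trans ?_
  have := un (A0 ∪ A1 ∪ A2) A3
  have := un (A0 ∪ A1) A2
  have := un A0 A1
  linarith

end one

end Pool.Agent.Work.MP_db9399_cfg_helper44
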